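import Pool.Agent.helper67.DL.SpecG

/-! # Project dl (MP_4caea3_gt), module BP: polystability -/

namespace Pool.Agent.DL

open Matrix Complex
open scoped ComplexOrder Manifold ContDiff

noncomputable section

section
variable {X : Type} [TopologicalSpace X] [ChartedSpace ℂ X] (D : CD X)

/-- the ranks -/
def BP_r : Fin 2 → ℕ := fun l => match l with
  | 0 => 2
  | 1 => 1

/-- the summands -/
def BP_F (a t : ℝ) : ∀ l : Fin 2, Higgs X (BP_r l) := fun l => match l with
  | 0 => BV D a t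
  | 1 => BO D a t

/-- the inclusion of the rank two part -/
def BP_E0 : Matrix (Fin 3) (Fin 2) ℂ := !![1, 0; 0, 1; 0, 0]

/-- the inclusion of the rank one part -/
def BP_E1 : Matrix (Fin 3) (Fin 1) ℂ := !![0; 0; 1]

/-- the morphisms -/
def BP_G (a t : ℝ) : ∀ l : Fin 2, (BB D a t).C.ι → (BP_F D a t l).C.ι → X → Matrix (Fin 3) (Fin (BP_r l)) ℂ :=
  fun l => match l with
  | 0 => fun i k x => (BB D a t).g i k x * BP_E0
  | 1 => fun i k x => (BB D a t).g i k x * BP_E1

theorem BP_gB (hD : D.Valid) (a : ℝ) (i k : Bool) (x : X) (hx : x ∈ (cov D a).U i ∩ (cov D a).U k) :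
    ∃ u v : ℂ, u ≠ 0 ∧ v ≠ 0 ∧ gB D i k x = diagonal ![u, v, 1] := by
  have h1 : (1 : Matrix (Fin 3) (Fin 3) ℂ) = diagonal ![1, 1, 1] := by
    rw [← diagonal_one]
    congr 1
    ext j
    fin_cases j <;> rfl
  cases i <;> cases k
  · exact ⟨1, 1, one_ne_zero, one_ne_zero, h1⟩
  · have hm : D.ζ x * D.ν x = 1 := hD.mul x hx
    exact ⟨D.ζ x, D.ν x, left_ne_zero_of_mul_eq_one hm, right_ne_zero_of_mul_eq_one hm, rfl⟩
  · have hm : D.ζ x * D.ν x = 1 := hD.mul x hx.symm
    exact ⟨D.ν x, D.ζ x, right_ne_zero_of_mul_eq_one hm, left_ne_zero_of_mul_eq_one hm, rfl⟩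
  · exact ⟨1, 1, one_ne_zero, one_ne_zero, h1⟩

theorem BP_mor0 (a t : ℝ) (hB : (BB D a t).Valid) :
    IsMor (BV D a t) (BB D a t) (fun i k x => (BB D a t).g i k x * BP_E0) := by
  have hE : ∀ i j x, gB D i j x * BP_E0 = BP_E0 * gV D i j x := by
    intro i j x
    cases i <;> cases j <;> simp only [gB, gV, BP_E0, Matrix.one_mul, Matrix.mul_one]
    all_goals
      ext p q
      fin_cases p <;> fin_cases q <;> simp [Matrix.mul_apply, Fin.sum_univ_succ, diagonal]
  have hA : ∀ i x, (BB D a t).A i x * BP_E0 = BP_E0 * (BV D a t).A i x := by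
    intro i x
    simp only [BB, BV, BP_E0]
    ext p q
    fin_cases p <;> fin_cases q <;> simp [Matrix.mul_apply, Fin.sum_univ_succ]
  refine ⟨?_, ?_, ?_⟩
  · intro i k p q
    have h : (fun x => ((BB D a t).g i k x * BP_E0) p q) = fun x => (BB D a t).g i k x p (Fin.castSucc q) := by
      funext x
      rw [Matrix.mul_apply, Fin.sum_univ_three]
      fin_cases q <;> simp [BP_E0]
    rw [h]
    exact hB.g_holo i k p _
  · intro i j k l x hx
    have h1 := hB.g_mul i j l x ⟨hx.1, hx.2.2⟩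
    have h2 := hB.g_mul i k l x ⟨⟨hx.1.1, hx.2.1⟩, hx.2.2⟩
    change (BB D a t).g i j x * ((BB D a t).g j l x * BP_E0) =
      (BB D a t).g i k x * BP_E0 * gV D k l x
    rw [← Matrix.mul_assoc, h1, Matrix.mul_assoc, ← hE, ← h2, Matrix.mul_assoc]
    rfl
  · intro i k x hx
    change (BB D a t).A i x * ((BB D a t).g i k x * BP_E0) =
      (BB D a t).C.rat i k x • ((BB D a t).g i k x * BP_E0 * (BV D a t).A k x)
    rw [← Matrix.mul_assoc, hB.A_trans i k x hx, Matrix.smul_mul, Matrix.mul_assoc, Matrix.mul_assoc, hA]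

theorem BP_mor1 (a t : ℝ) (hB : (BB D a t).Valid) :
    IsMor (BO D a t) (BB D a t) (fun i k x => (BB D a t).g i k x * BP_E1) := by
  have hE : ∀ i j x, gB D i j x * BP_E1 = BP_E1 := by
    intro i j x
    cases i <;> cases j <;> simp only [gB, BP_E1, Matrix.one_mul]
    all_goals
      ext p q
      fin_cases p <;> fin_cases q <;> simp [Matrix.mul_apply, Fin.sum_univ_succ, diagonal]
  have hA : ∀ i x, (BB D a t).A i x * BP_E1 = BP_E1 * (BO D a t).A i x := by
    intro i x
    simp only [BB, BO, BP_E1]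
    ext p q
    fin_cases p <;> fin_cases q <;> simp [Matrix.mul_apply, Fin.sum_univ_succ]
  refine ⟨?_, ?_, ?_⟩
  · intro i k p q
    have h : (fun x => ((BB D a t).g i k x * BP_E1) p q) = fun x => (BB D a t).g i k x p 2 := by
      funext x
      rw [Matrix.mul_apply, Fin.sum_univ_three]
      fin_cases q
      simp [BP_E1]
    rw [h]
    exact hB.g_holo i k p _
  · intro i j k l x hx
    have h1 := hB.g_mul i j l x ⟨hx.1, hx.2.2⟩
    have h2 := hB.g_mul i k l x ⟨⟨hx.1.1, hx.2.1⟩, hx.2.2⟩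
    change (BB D a t).g i j x * ((BB D a t).g j l x * BP_E1) =
      (BB D a t).g i k x * BP_E1 * (1 : Matrix (Fin 1) (Fin 1) ℂ)
    rw [← Matrix.mul_assoc, h1, Matrix.mul_one, ← h2, Matrix.mul_assoc]
    congr 1
    exact hE k l x
  · intro i k x hx
    change (BB D a t).A i x * ((BB D a t).g i k x * BP_E1) =
      (BB D a t).C.rat i k x • ((BB D a t).g i k x * BP_E1 * (BO D a t).A k x)
    rw [← Matrix.mul_assoc, hB.A_trans i k x hx, Matrix.smul_mul, Matrix.mul_assoc, Matrix.mul_assoc, hA]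

end

/-- BP. Polystability. -/
theorem BP (hBA : BA_stmt) (hBS : BS_stmt) : BP_stmt := by
  intro X _ _ D hD a t ha ht
  obtain ⟨hB, _, hV, hO, dV, dO⟩ := hBA X D hD a t (by linarith) ht
  obtain ⟨sV, sO⟩ := hBS X D hD a t ha ht
  refine ⟨2, BP_r, BP_F D a t, BP_G D a t, ?_, ?_⟩
  · intro l
    match l with
    | 0 => exact ⟨hV, sV, dV, BP_mor0 D a t hB⟩
    | 1 => exact ⟨hO, sO, dO, BP_mor1 D a t hB⟩
  · intro x i hi κ hκ
    obtain ⟨u, v, hu, hv, hg⟩ := BP_gB D hD a i (κ 0) x ⟨hi, hκ 0⟩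
    obtain ⟨u', v', hu', hv', hg'⟩ := BP_gB D hD a i (κ 1) x ⟨hi, hκ 1⟩
    have key : ∀ w : ∀ l, Fin (BP_r l) → ℂ, ∑ l, (BP_G D a t l i (κ l) x).mulVec (w l) =
        ![u * w 0 (0 : Fin 2), v * w 0 (1 : Fin 2), w 1 (0 : Fin 1)] := by
      intro w
      rw [Fin.sum_univ_two]
      change ((gB D i (κ 0) x * BP_E0).mulVec (w 0) + (gB D i (κ 1) x * BP_E1).mulVec (w 1)) = _
      rw [hg, hg']
      ext p
      fin_cases p <;> simp [Matrix.mulVec, dotProduct, Fin.sum_univ_succ, BP_E0, BP_E1, Matrix.mul_apply, diagonal]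
    constructor
    · intro w w' h
      simp only [key] at h
      have h0 := congrFun h 0
      have h1 := congrFun h 1
      have h2 := congrFun h 2
      simp only [cons_val_zero, cons_val_one, cons_val] at h0 h1 h2
      funext l
      match l with
      | 0 =>
        funext j
        change Fin 2 at j
        fin_cases j
        · exact mul_left_cancel₀ hu h0
        · exact mul_left_cancel₀ hv h1
      | 1 =>
        funext j
        change Fin 1 at j
        fin_cases j
        exact h2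
    · intro y
      refine ⟨fun l => match l with
        | 0 => (![u⁻¹ * y 0, v⁻¹ * y 1] : Fin 2 → ℂ)
        | 1 => (![y 2] : Fin 1 → ℂ), ?_⟩
      simp only [key]
      ext p
      fin_cases p
      · simp [mul_inv_cancel_left₀ hu]
      · simp [mul_inv_cancel_left₀ hv]
      · simp

end

end Pool.Agent.DL
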