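import Pool.Agent.helper67.DL.SpecG

/-! # Project dl (MP_4caea3_gt), module HU: uniqueness of the harmonic metric of the symmetric Hitchin section -/

namespace Pool.Agent.DL

open Matrix Complex
open scoped ComplexOrder Manifold ContDiff

noncomputable section

theorem HU_alg (b c : ℂ) (S : Matrix (Fin 3) (Fin 3) ℂ)
    (h : !![0, b, c; 1, 0, b; 0, 1, 0] * S = S * !![0, b, c; 1, 0, b; 0, 1, 0])
    (h1 : S 1 0 = 0) (h2 : S 2 0 = 0) : S = S 0 0 • (1 : Matrix (Fin 3) (Fin 3) ℂ) := by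
  have e : ∀ p q : Fin 3, (!![0, b, c; 1, 0, b; 0, 1, 0] * S) p q = (S * !![0, b, c; 1, 0, b; 0, 1, 0]) p q :=
    fun p q => by rw [h]
  have e00 := e 0 0
  have e10 := e 1 0
  have e20 := e 2 0
  have e01 := e 0 1
  have e11 := e 1 1
  have e21 := e 2 1
  simp only [Matrix.mul_apply, Fin.sum_univ_three, Matrix.of_apply, Matrix.cons_val', Matrix.cons_val_zero,
    Matrix.cons_val_one, Matrix.cons_val] at e00 e10 e20 e01 e11 e21
  rw [h1, h2] at e00 e10 e20
  have s01 : S 0 1 = 0 := by linear_combination -e00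
  have s11 : S 1 1 = S 0 0 := by linear_combination -e10
  have s21 : S 2 1 = 0 := by linear_combination -e20
  rw [s01, s11, s21] at e01 e11 e21
  rw [h1] at e11
  rw [h2] at e21
  have s02 : S 0 2 = 0 := by linear_combination -e01
  have s12 : S 1 2 = 0 := by linear_combination -e11
  have s22 : S 2 2 = S 0 0 := by linear_combination -e21
  ext p q
  rw [Matrix.smul_apply, Matrix.one_apply]
  fin_cases p <;> fin_cases q <;> simp [h1, h2, s01, s11, s21, s02, s12, s22]

theorem HU_one (H S : Matrix (Fin 3) (Fin 3) ℂ) (s : ℂ) (hH : H.PosDef) (hHS : (H * S).PosDef) (hS : S = s • 1)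
    (d : H.det = 1) (d' : (H * S).det = 1) : s = 1 := by
  have h1 : s ^ 3 = 1 := by
    rw [Matrix.det_mul, d, one_mul, hS, Matrix.det_smul, Matrix.det_one, mul_one, Fintype.card_fin] at d'
    exact d'
  have p1 := hH.diag_pos (i := 0)
  have p2 := hHS.diag_pos (i := 0)
  have e : (H * S) 0 0 = s * H 0 0 := by
    rw [hS, Matrix.mul_smul, Matrix.mul_one, Matrix.smul_apply, smul_eq_mul]
  rw [e] at p2
  rw [Complex.lt_def] at p1 p2
  obtain ⟨p1r, p1i⟩ := p1
  obtain ⟨p2r, p2i⟩ := p2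
  simp only [Complex.zero_re, Complex.zero_im, Complex.mul_re, Complex.mul_im] at p1r p1i p2r p2i
  rw [← p1i, mul_zero, sub_zero] at p2r
  rw [← p1i, mul_zero, zero_add] at p2i
  have him : s.im = 0 := by
    rcases mul_eq_zero.1 p2i.symm with h | h
    · exact h
    · exact absurd h p1r.ne'
  have hre : 0 < s.re := (mul_pos_iff_of_pos_right p1r).1 p2r
  have hs : s = (s.re : ℂ) := by
    apply Complex.ext
    · simp
    · simp [him]
  rw [hs] at h1 ⊢
  have h2 : s.re ^ 3 = 1 := by exact_mod_cast h1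
  have h3 : s.re = 1 := by
    rcases lt_trichotomy s.re 1 with h | h | h
    · exact absurd h2 (pow_lt_one₀ hre.le h (by norm_num)).ne
    · exact h
    · exact absurd h2 (one_lt_pow₀ h (by norm_num)).ne'
  rw [h3]
  simp

theorem HU_pos {X : Type} [TopologicalSpace X] [ChartedSpace ℂ X] {n : ℕ} (B : Higgs X n)
    (H : B.C.ι → X → Matrix (Fin n) (Fin n) ℂ) (h : Harm B H) (i : B.C.ι) (x : X) (hx : x ∈ B.C.U i) :
    (H i x).PosDef := by
  have h1 := (h.loc i (chartAt ℂ x) (chart_mem_atlas ℂ x)).pos (chartAt ℂ x x)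
  have h2 : (chartAt ℂ x).symm (chartAt ℂ x x) = x := (chartAt ℂ x).left_inv (mem_chart_source ℂ x)
  have h3 := h1 ⟨(chartAt ℂ x).map_source (mem_chart_source ℂ x), by
    rw [Set.mem_preimage, h2]; exact hx⟩
  rw [h2] at h3
  exact h3

/-- HU. -/
theorem HU (hUN : UN_stmt) (hND : ND_stmt) (hHH : HH_stmt) (hEX : EX_stmt) : HU_stmt := by
  intro X _ _ D hT hD a t ha ht H H' hH hH' i x hx
  obtain ⟨hC, _, _, _, _, hq2, hq3, hrat, _⟩ := hEX X D hD a t ha ht
  obtain ⟨_, _, hV, _⟩ := hHH X (cov D a) (q2F D a t) (q3F D a t) hC hq2 hq3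
  have hun := hUN X hT 3 (hitS (cov D a) (q2F D a t) (q3F D a t)) hV H H' hH.1 hH'.1
  have pos : ∀ i, ∀ x ∈ (cov D a).U i, (H i x).PosDef := fun i x hx => HU_pos _ H hH.1 i x hx
  have pos' : ∀ i, ∀ x ∈ (cov D a).U i, (H' i x).PosDef := fun i x hx => HU_pos _ H' hH'.1 i x hx
  have hHS : ∀ i, ∀ x ∈ (cov D a).U i, H i x * ((H i x)⁻¹ * H' i x) = H' i x := by
    intro i x hx
    have hu : IsUnit (H i x).det := by
      rw [hH.2 i x hx]; exact isUnit_one
    rw [← Matrix.mul_assoc, Matrix.mul_nonsing_inv _ hu, Matrix.one_mul]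
  -- the transition
  have key : ∀ x ∈ D.U0 ∩ D.U1, ∀ p q : Fin 3,
      (![D.ζ x ^ 2, 1, D.ν x ^ 2] : Fin 3 → ℂ) p * ((H true x)⁻¹ * H' true x) p q =
      ((H false x)⁻¹ * H' false x) p q * (![D.ζ x ^ 2, 1, D.ν x ^ 2] : Fin 3 → ℂ) q := by
    intro x hx p q
    set g : Matrix (Fin 3) (Fin 3) ℂ := diagonal ![D.ζ x ^ 2, 1, D.ν x ^ 2] with hg
    have hgB : (hitS (cov D a) (q2F D a t) (q3F D a t)).g false true x = g := by
      change diagonal ![(cov D a).rat false true x, 1, (cov D a).rat true false x] = g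
      rw [(hrat x hx).1, (hrat x hx).2]
    have hζν : D.ζ x * D.ν x = 1 := hD.mul x hx
    have hdet : IsUnit g.det := by
      rw [hg, det_diagonal, Fin.prod_univ_three]
      have : (![D.ζ x ^ 2, 1, D.ν x ^ 2] : Fin 3 → ℂ) 0 * (![D.ζ x ^ 2, 1, D.ν x ^ 2] : Fin 3 → ℂ) 1 *
          (![D.ζ x ^ 2, 1, D.ν x ^ 2] : Fin 3 → ℂ) 2 = 1 := by
        change D.ζ x ^ 2 * 1 * D.ν x ^ 2 = 1
        rw [mul_one, ← mul_pow, hζν, one_pow]
      rw [this]
      exact isUnit_one
    have hdet' : IsUnit (gᴴ).det := by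
      rw [det_conjTranspose]
      exact hdet.star
    have g1 := hH.1.glue false true x hx
    have g2 := hH'.1.glue false true x hx
    rw [hgB] at g1 g2
    have e1 : gᴴ * (H false x * (g * ((H true x)⁻¹ * H' true x))) = gᴴ * (H' false x * g) := by
      calc gᴴ * (H false x * (g * ((H true x)⁻¹ * H' true x)))
          = (gᴴ * H false x * g) * ((H true x)⁻¹ * H' true x) := by simp only [Matrix.mul_assoc]
        _ = H' true x := by rw [← g1]; exact hHS true x hx.2
        _ = gᴴ * (H' false x * g) := by rw [g2]; simp only [Matrix.mul_assoc]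
    have cancel : ∀ M N P : Matrix (Fin 3) (Fin 3) ℂ, IsUnit M.det → M * N = M * P → N = P := by
      intro M N P hM h
      have := congrArg (fun Z => M⁻¹ * Z) h
      simpa only [← Matrix.mul_assoc, Matrix.nonsing_inv_mul _ hM, Matrix.one_mul] using this
    have e2 := cancel _ _ _ hdet' e1
    have hu : IsUnit (H false x).det := by
      rw [hH.2 false x hx.1]; exact isUnit_one
    have e3 : g * ((H true x)⁻¹ * H' true x) = ((H false x)⁻¹ * H' false x) * g := by
      apply cancel (H false x) _ _ hu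
      rw [e2, ← Matrix.mul_assoc (H false x), hHS false x hx.1]
    have e4 := congrFun (congrFun e3 p) q
    rw [hg, diagonal_mul, mul_diagonal] at e4
    exact e4
  have hζν : ∀ x ∈ D.U0 ∩ D.U1, D.ζ x * D.ν x = 1 := fun x hx => hD.mul x hx
  have z20 := hND X D hT hD 2 (fun x => ((H false x)⁻¹ * H' false x) 2 0) (fun x => ((H true x)⁻¹ * H' true x) 2 0)
    (by norm_num) ((hun false).1 2 0) ((hun true).1 2 0) (by
      intro x hx
      have e := key x hx 2 0
      change D.ν x ^ 2 * ((H true x)⁻¹ * H' true x) 2 0 = ((H false x)⁻¹ * H' false x) 2 0 * D.ζ x ^ 2 at e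
      have h1 := hζν x hx
      have h2 : D.ζ x ^ 2 * D.ν x ^ 2 = 1 := by rw [← mul_pow, h1, one_pow]
      change ((H false x)⁻¹ * H' false x) 2 0 = D.ν x ^ (2 * 2) * ((H true x)⁻¹ * H' true x) 2 0
      linear_combination (-((H false x)⁻¹ * H' false x) 2 0) * h2 - D.ν x ^ 2 * e)
  have z10 := hND X D hT hD 1 (fun x => ((H false x)⁻¹ * H' false x) 1 0) (fun x => ((H true x)⁻¹ * H' true x) 1 0)
    le_rfl ((hun false).1 1 0) ((hun true).1 1 0) (by
      intro x hx
      have e := key x hx 1 0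
      change 1 * ((H true x)⁻¹ * H' true x) 1 0 = ((H false x)⁻¹ * H' false x) 1 0 * D.ζ x ^ 2 at e
      have h1 := hζν x hx
      have h2 : D.ζ x ^ 2 * D.ν x ^ 2 = 1 := by rw [← mul_pow, h1, one_pow]
      change ((H false x)⁻¹ * H' false x) 1 0 = D.ν x ^ (2 * 1) * ((H true x)⁻¹ * H' true x) 1 0
      linear_combination (-((H false x)⁻¹ * H' false x) 1 0) * h2 - D.ν x ^ 2 * e)
  have s10 : ((H i x)⁻¹ * H' i x) 1 0 = 0 := by
    cases i
    · exact z10.1 x hx
    · exact z10.2 x hx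
  have s20 : ((H i x)⁻¹ * H' i x) 2 0 = 0 := by
    cases i
    · exact z20.1 x hx
    · exact z20.2 x hx
  have hcomm := (hun i).2 x hx
  have hS := HU_alg _ _ _ hcomm s10 s20
  have e1 := hHS i x hx
  have h1 := HU_one (H i x) _ _ (pos i x hx) (by rw [e1]; exact pos' i x hx) hS (hH.2 i x hx)
    (by rw [e1]; exact hH'.2 i x hx)
  rw [h1, one_smul] at hS
  rw [hS, Matrix.mul_one] at e1
  exact e1

end

end Pool.Agent.DL
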